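import Pool.Agent.Lib.MP_48de40_an.Bridge

/-!
# MP_48de40_an, Q1: disproof

On the compact nilmanifold `M = Gam \ V` of dimension six there is a volume-preserving partially
hyperbolic diffeomorphism `f` of class `C^∞`, with a splitting of class `C^∞`, which is critical
for the unstable bundle and volume and is not a local maximum of the unstable exponent, in any
`C^r` topology.
-/

open scoped ContDiff

namespace Pool.Agent.Results.MP_48de40_an.CriticalNotMax

open Pool.Agent.Lib.MP_48de40_an

theorem result : NilmanifoldFacts ∧ ∃ (f : V → V) (P : Bundles),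
    VolDiffeo ∞ f ∧ PartHyp ∞ f P ∧ CriticalU f P ∧ ∀ r : ℕ, ¬ LocMaxU r f P := by
  obtain ⟨k, hk, h⟩ := not_localMaxU
  have hp := isPH_mf (n := ∞) (one_lt_lam hk)
  exact ⟨nilmanifoldFacts, mf (lam k), toV P0, volDiffeo_mf k, partHyp_toV hp,
    critical_toV (critical_mf (one_lt_lam hk)),
    fun r hr => h r (locMax_toV (volDiffeo_mf k).smooth hp.1.proj_u hr)⟩

end Pool.Agent.Results.MP_48de40_an.CriticalNotMax
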